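import Pool.Agent.Helper43.RS.Spec

/-!
# The algebraic main theorem
-/

namespace Pool.Agent.Helper43.RS

open scoped ComplexConjugate

section CORE

variable {R : Type} [CommRing R] [Algebra ℂ R]

/-- forgetting linearity -/
def core_toE : (R ≃ₐ[ℂ] R) →* (R ≃+* R) where
  toFun a := a.toRingEquiv
  map_one' := rfl
  map_mul' _ _ := rfl

theorem core_toE_apply (a : R ≃ₐ[ℂ] R) (r : R) : core_toE a r = a r := rfl

theorem core_toE_inj : Function.Injective (core_toE (R := R)) := by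
  intro a b h
  ext r
  have := congrArg (fun f : R ≃+* R => f r) h
  exact this

theorem core_lift (x : R ≃+* R) (hx : ∀ c : ℂ, x (algebraMap ℂ R c) = algebraMap ℂ R c) :
    ∃ a : R ≃ₐ[ℂ] R, core_toE a = x :=
  ⟨AlgEquiv.ofRingEquiv (f := x) hx, by ext r; rfl⟩

omit [Algebra ℂ R] in
theorem core_inv_apply_self (ψ : R ≃+* R) (r : R) : ψ⁻¹ (ψ r) = r := ψ.symm_apply_apply r

omit [Algebra ℂ R] in
theorem core_self_apply_inv (ψ : R ≃+* R) (r : R) : ψ (ψ⁻¹ r) = r := ψ.apply_symm_apply r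

theorem core_conj (ψ : R ≃+* R)
    (h : Anti ψ ∨ ∀ c : ℂ, ψ (algebraMap ℂ R c) = algebraMap ℂ R c) (a : R ≃ₐ[ℂ] R) :
    ∃ a' : R ≃ₐ[ℂ] R, core_toE a' = ψ * core_toE a * ψ⁻¹ ∧ ∀ r, a' (ψ r) = ψ (a r) := by
  have hlin : ∀ c : ℂ, (ψ * core_toE a * ψ⁻¹) (algebraMap ℂ R c) = algebraMap ℂ R c := by
    intro c
    show ψ (a (ψ⁻¹ (algebraMap ℂ R c))) = _
    rcases h with h | h
    · have h1 : ψ (algebraMap ℂ R (conj c)) = algebraMap ℂ R c := by
        rw [h, Complex.conj_conj]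
      have h2 : ψ⁻¹ (algebraMap ℂ R c) = algebraMap ℂ R (conj c) := by
        rw [← h1]
        exact core_inv_apply_self ψ _
      rw [h2, a.commutes, h1]
    · have h2 : ψ⁻¹ (algebraMap ℂ R c) = algebraMap ℂ R c := by
        nth_rewrite 1 [← h c]
        exact core_inv_apply_self ψ _
      rw [h2, a.commutes, h]
  obtain ⟨a', ha'⟩ := core_lift _ hlin
  refine ⟨a', ha', fun r => ?_⟩
  have h1 : core_toE a' (ψ r) = (ψ * core_toE a * ψ⁻¹) (ψ r) := by rw [ha']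
  have h2 : (ψ * core_toE a * ψ⁻¹) (ψ r) = ψ (a (ψ⁻¹ (ψ r))) := rfl
  rw [core_inv_apply_self] at h2
  exact h1.trans h2

theorem core_anti_smul {μ : R ≃+* R} (h : Anti μ) (c : ℂ) (r : R) :
    μ (c • r) = conj c • μ r := by
  rw [Algebra.smul_def, map_mul, h, ← Algebra.smul_def]

/-- the image of a subspace under an antilinear involution -/
def core_im (μ : R ≃+* R) (h : Anti μ) (V : Submodule ℂ R) : Submodule ℂ R where
  carrier := {x | μ x ∈ V}
  add_mem' := by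
    intro x y hx hy
    show μ (x + y) ∈ V
    rw [map_add]
    exact V.add_mem hx hy
  zero_mem' := by
    show μ 0 ∈ V
    rw [map_zero]
    exact V.zero_mem
  smul_mem' := by
    intro c x hx
    show μ (c • x) ∈ V
    rw [core_anti_smul h]
    exact V.smul_mem _ hx

theorem core_mem_im (μ : R ≃+* R) (h : Anti μ) (V : Submodule ℂ R) (x : R) :
    x ∈ core_im μ h V ↔ μ x ∈ V := Iff.rfl

theorem core_im_fin (μ : R ≃+* R) (h : Anti μ) (h2 : ∀ r, μ (μ r) = r) (V : Submodule ℂ R)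
    [hV : FiniteDimensional ℂ V] : FiniteDimensional ℂ (core_im μ h V) := by
  obtain ⟨S, hS⟩ := (Submodule.fg_iff_finiteDimensional V).mpr hV
  rw [← Submodule.fg_iff_finiteDimensional]
  classical
  refine ⟨S.image μ, ?_⟩
  apply le_antisymm
  · rw [Submodule.span_le]
    intro x hx
    rw [Finset.coe_image] at hx
    obtain ⟨y, hy, rfl⟩ := hx
    show μ (μ y) ∈ V
    rw [h2, ← hS]
    exact Submodule.subset_span hy
  · intro x hx
    have hx' : μ x ∈ Submodule.span ℂ (S : Set R) := by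
      rw [hS]; exact hx
    have key : ∀ y ∈ Submodule.span ℂ (S : Set R),
        μ y ∈ Submodule.span ℂ ((S.image μ : Finset R) : Set R) := by
      intro y hy
      induction hy using Submodule.span_induction with
      | mem y hy =>
        refine Submodule.subset_span ?_
        rw [Finset.coe_image]
        exact ⟨y, hy, rfl⟩
      | zero => rw [map_zero]; exact Submodule.zero_mem _
      | add y z _ _ hy hz => rw [map_add]; exact Submodule.add_mem _ hy hz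
      | smul c y _ hy => rw [core_anti_smul h]; exact Submodule.smul_mem _ _ hy
    have := key _ hx'
    rwa [h2] at this

variable {G : Type} [Group G]

/-- finite dimensional subspaces of a rational representation are contained in stable ones -/
theorem core_locfin {H : Subalgebra ℂ (G → ℂ)} (ρ : G →* (R ≃ₐ[ℂ] R)) (hρ : IsRat H (toRep ρ))
    (V : Submodule ℂ R) [hV : FiniteDimensional ℂ V] :
    ∃ W : Submodule ℂ R, V ≤ W ∧ FiniteDimensional ℂ W ∧ ∀ g, ∀ w ∈ W, ρ g w ∈ W := by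
  obtain ⟨S, hS⟩ := (Submodule.fg_iff_finiteDimensional V).mpr hV
  choose W hW1 hW2 hW3 hW4 using hρ
  classical
  refine ⟨S.sup W, ?_, ?_, ?_⟩
  · rw [← hS, Submodule.span_le]
    intro x hx
    exact (Finset.le_sup (f := W) hx) (hW1 x)
  · have : ∀ T : Finset R, FiniteDimensional ℂ (T.sup W : Submodule ℂ R) := by
      intro T
      induction T using Finset.induction_on with
      | empty =>
        rw [Finset.sup_empty]
        infer_instance
      | insert a T ha ih =>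
        rw [Finset.sup_insert]
        have := hW2 a
        have := ih
        infer_instance
    exact this S
  · intro g
    have : ∀ T : Finset R, ∀ w ∈ (T.sup W : Submodule ℂ R), ρ g w ∈ (T.sup W : Submodule ℂ R) := by
      intro T
      induction T using Finset.induction_on with
      | empty =>
        intro w hw
        rw [Finset.sup_empty, Submodule.mem_bot] at hw
        rw [hw, map_zero]
        exact Submodule.zero_mem _
      | insert a T ha ih =>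
        intro w hw
        rw [Finset.sup_insert] at hw ⊢
        obtain ⟨w1, hw1, w2, hw2, rfl⟩ := Submodule.mem_sup.mp hw
        rw [map_add]
        exact Submodule.add_mem_sup (hW3 a g w1 hw1) (ih w2 hw2)
    exact this S

/-- the span of the translates -/
def core_tr (ρ : G →* (R ≃ₐ[ℂ] R)) (V : Submodule ℂ R) : Submodule ℂ R :=
  Submodule.span ℂ {x | ∃ g : G, ∃ v ∈ V, x = ρ g v}

theorem core_tr_le (ρ : G →* (R ≃ₐ[ℂ] R)) (V : Submodule ℂ R) : V ≤ core_tr ρ V := by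
  intro v hv
  refine Submodule.subset_span ⟨1, v, hv, ?_⟩
  rw [map_one]
  rfl

theorem core_tr_fin {H : Subalgebra ℂ (G → ℂ)} (ρ : G →* (R ≃ₐ[ℂ] R))
    (hρ : IsRat H (toRep ρ)) (V : Submodule ℂ R) [hV : FiniteDimensional ℂ V] :
    FiniteDimensional ℂ (core_tr ρ V) := by
  obtain ⟨W, h1, h2, h3⟩ := core_locfin ρ hρ V
  have := h2
  have hle : core_tr ρ V ≤ W := by
    unfold core_tr
    rw [Submodule.span_le]
    rintro x ⟨g, v, hv, rfl⟩
    exact h3 g v (h1 hv)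
  exact Submodule.finiteDimensional_of_le hle

theorem core_tr_stab (ρ : G →* (R ≃ₐ[ℂ] R)) (V : Submodule ℂ R) (g : G) (w : R)
    (hw : w ∈ core_tr ρ V) : ρ g w ∈ core_tr ρ V := by
  unfold core_tr at hw
  induction hw using Submodule.span_induction with
  | mem y hy =>
    obtain ⟨g', v, hv, rfl⟩ := hy
    refine Submodule.subset_span ⟨g * g', v, hv, ?_⟩
    rw [map_mul]
    rfl
  | zero => rw [map_zero]; exact Submodule.zero_mem _
  | add y z _ _ hy hz => rw [map_add]; exact Submodule.add_mem _ hy hz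
  | smul c y _ hy => rw [map_smul]; exact Submodule.smul_mem _ _ hy

theorem core_tr_aut (ρ : G →* (R ≃ₐ[ℂ] R)) (V : Submodule ℂ R) (a : R ≃ₐ[ℂ] R)
    (ha : a ∈ eqAut ρ) (haV : ∀ v ∈ V, a v ∈ V) (w : R)
    (hw : w ∈ core_tr ρ V) : a w ∈ core_tr ρ V := by
  unfold core_tr at hw
  induction hw using Submodule.span_induction with
  | mem y hy =>
    obtain ⟨g', v, hv, rfl⟩ := hy
    refine Submodule.subset_span ⟨g', a v, haV v hv, ?_⟩
    exact congrArg (fun f : R ≃ₐ[ℂ] R => f v) (ha g')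
  | zero => rw [map_zero]; exact Submodule.zero_mem _
  | add y z _ _ hy hz => rw [map_add]; exact Submodule.add_mem _ hy hz
  | smul c y _ hy => rw [map_smul]; exact Submodule.smul_mem _ _ hy

/-- the affine conditions -/
theorem core_affine (ρ : G →* (R ≃ₐ[ℂ] R)) (V₀ V : Submodule ℂ R) (hle : V₀ ≤ V)
    (hG : ∀ g, ∀ v ∈ V, ρ g v ∈ V) (K₀ : AffineSubspace ℂ (V₀ →ₗ[ℂ] R)) :
    ∃ K : AffineSubspace ℂ (V →ₗ[ℂ] R), ∀ h : V →ₗ[ℂ] R, h ∈ K ↔
      (h ∘ₗ Submodule.inclusion hle ∈ K₀ ∧ (∀ v : V₀, h (Submodule.inclusion hle v) ∈ V₀) ∧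
        ∀ g, ∀ v : V, h ⟨ρ g v, hG g v v.2⟩ = ρ g (h v)) := by
  let L : (V →ₗ[ℂ] R) →ₗ[ℂ] (V₀ →ₗ[ℂ] R) :=
    { toFun := fun h => h ∘ₗ Submodule.inclusion hle
      map_add' := fun _ _ => rfl
      map_smul' := fun _ _ => rfl }
  let M : Submodule ℂ (V →ₗ[ℂ] R) :=
    { carrier := {h | (∀ v : V₀, h (Submodule.inclusion hle v) ∈ V₀) ∧
        ∀ g, ∀ v : V, h ⟨ρ g v, hG g v v.2⟩ = ρ g (h v)}
      add_mem' := by
        rintro a b ⟨ha1, ha2⟩ ⟨hb1, hb2⟩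
        refine ⟨fun v => ?_, fun g v => ?_⟩
        · rw [LinearMap.add_apply]
          exact V₀.add_mem (ha1 v) (hb1 v)
        · rw [LinearMap.add_apply, LinearMap.add_apply, ha2, hb2, map_add]
      zero_mem' := by
        refine ⟨fun v => ?_, fun g v => ?_⟩
        · rw [LinearMap.zero_apply]
          exact V₀.zero_mem
        · rw [LinearMap.zero_apply, LinearMap.zero_apply, map_zero]
      smul_mem' := by
        rintro c a ⟨ha1, ha2⟩
        refine ⟨fun v => ?_, fun g v => ?_⟩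
        · rw [LinearMap.smul_apply]
          exact V₀.smul_mem _ (ha1 v)
        · rw [LinearMap.smul_apply, LinearMap.smul_apply, ha2, map_smul] }
  refine ⟨K₀.comap L.toAffineMap ⊓ M.toAffineSubspace, fun h => ?_⟩
  rw [AffineSubspace.mem_inf_iff, AffineSubspace.mem_comap, Submodule.mem_toAffineSubspace]
  rfl

theorem core_gen {V : Submodule ℂ R} (hV : Algebra.adjoin ℂ (V : Set R) = ⊤)
    (a b : R ≃ₐ[ℂ] R) (h : ∀ v ∈ V, a v = b v) : a = b := by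
  have : (a : R →ₐ[ℂ] R) = (b : R →ₐ[ℂ] R) := AlgHom.ext_of_adjoin_eq_top hV h
  ext r
  exact congrArg (fun f : R →ₐ[ℂ] R => f r) this

/-- the local finiteness statement -/
theorem core_loc (hLOC : ST_LOC) {H : Subalgebra ℂ (G → ℂ)} (ρ : G →* (R ≃ₐ[ℂ] R))
    (hρ : IsRat H (toRep ρ)) (σ : G ≃* G) (E₀ A₂ : Subgroup (R ≃ₐ[ℂ] R))
    (hE : eqAut ρ ≤ E₀)
    (V₀ : Submodule ℂ R) (hfin : FiniteDimensional ℂ V₀)
    (hgen : Algebra.adjoin ℂ (V₀ : Set R) = ⊤) (K₀ : AffineSubspace ℂ (V₀ →ₗ[ℂ] R))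
    (hA₂ : ∀ a ∈ E₀, a ∈ A₂ ↔ (∀ v ∈ V₀, a v ∈ V₀) ∧ a.toLinearMap ∘ₗ V₀.subtype ∈ K₀)
    (μ : R ≃+* R) (hμ : IsRS ρ σ μ)
    (hconj : ∀ a ∈ A₂ ⊓ eqAut ρ, ∃ a' ∈ A₂ ⊓ eqAut ρ, ∀ r, a' r = μ (a (μ r))) :
    ∃ T : Finset (R ≃ₐ[ℂ] R), (∀ b ∈ T, b ∈ A₂ ⊓ eqAut ρ ∧ ∀ r, b (μ (b (μ r))) = r) ∧
      ∀ a ∈ A₂ ⊓ eqAut ρ, (∀ r, a (μ (a (μ r))) = r) →
        ∃ b ∈ T, ∃ x ∈ A₂ ⊓ eqAut ρ, ∀ r, a (μ r) = x (b (μ (x.symm r))) := by
  obtain ⟨hanti, hinv, hcomm⟩ := hμ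
  have := hfin
  have h1fin : FiniteDimensional ℂ (core_tr ρ V₀) := core_tr_fin ρ hρ V₀
  have h2fin : FiniteDimensional ℂ (core_im μ hanti (core_tr ρ V₀)) :=
    core_im_fin μ hanti hinv _
  set V : Submodule ℂ R := core_tr ρ V₀ ⊔ core_im μ hanti (core_tr ρ V₀) with hV
  have hle : V₀ ≤ V := le_trans (core_tr_le ρ V₀) le_sup_left
  have hVfin : FiniteDimensional ℂ V := inferInstance
  have hVgen : Algebra.adjoin ℂ (V : Set R) = ⊤ :=
    top_le_iff.mp (hgen ▸ Algebra.adjoin_mono hle)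
  have hVG : ∀ g, ∀ v ∈ V, ρ g v ∈ V := by
    intro g v hv
    obtain ⟨v1, hv1, v2, hv2, rfl⟩ := Submodule.mem_sup.mp hv
    rw [map_add]
    refine Submodule.add_mem_sup (core_tr_stab ρ V₀ g v1 hv1) ?_
    rw [core_mem_im] at hv2 ⊢
    rw [hcomm]
    exact core_tr_stab ρ V₀ _ _ hv2
  have hVμ : ∀ v ∈ V, μ v ∈ V := by
    intro v hv
    obtain ⟨v1, hv1, v2, hv2, rfl⟩ := Submodule.mem_sup.mp hv
    rw [map_add, add_comm]
    rw [core_mem_im] at hv2
    refine Submodule.add_mem_sup hv2 ?_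
    rw [core_mem_im, hinv]
    exact hv1
  have hVA : ∀ a ∈ A₂ ⊓ eqAut ρ, ∀ v ∈ V, a v ∈ V := by
    intro a ha v hv
    have hstab : ∀ b ∈ A₂ ⊓ eqAut ρ, ∀ w ∈ core_tr ρ V₀, b w ∈ core_tr ρ V₀ := by
      intro b hb
      exact core_tr_aut ρ V₀ b hb.2 ((hA₂ b (hE hb.2)).mp hb.1).1
    obtain ⟨v1, hv1, v2, hv2, rfl⟩ := Submodule.mem_sup.mp hv
    rw [map_add]
    refine Submodule.add_mem_sup (hstab a ha v1 hv1) ?_
    obtain ⟨a', ha', hr⟩ := hconj a ha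
    rw [core_mem_im] at hv2 ⊢
    have := hstab a' ha' (μ v2) hv2
    rwa [hr, hinv] at this
  obtain ⟨K, hK⟩ := core_affine ρ V₀ V hle hVG K₀
  refine hLOC R V hVfin hVgen (A₂ ⊓ eqAut ρ) K (fun a => ?_) μ hanti hinv hVμ hconj
  constructor
  · intro ha
    refine ⟨hVA a ha, ?_⟩
    rw [hK]
    have h0 := (hA₂ a (hE ha.2)).mp ha.1
    refine ⟨?_, fun v => h0.1 v v.2, fun g v => ?_⟩
    · exact h0.2
    · exact congrArg (fun f : R ≃ₐ[ℂ] R => f v) (ha.2 g)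
  · rintro ⟨ha1, ha2⟩
    rw [hK] at ha2
    obtain ⟨k1, k2, k3⟩ := ha2
    have heq : a ∈ eqAut ρ := by
      intro g
      refine core_gen hVgen _ _ fun v hv => ?_
      exact k3 g ⟨v, hv⟩
    refine ⟨?_, heq⟩
    have := (hA₂ a (hE heq)).mpr ⟨fun v hv => k2 ⟨v, hv⟩, k1⟩
    exact this

theorem core_eqAut_conj (ρ : G →* (R ≃ₐ[ℂ] R)) (ψ : R ≃+* R) (σ' : G ≃* G)
    (hψ : ∀ g r, ψ (ρ g r) = ρ (σ' g) (ψ r)) (a : R ≃ₐ[ℂ] R) (ha : a ∈ eqAut ρ)
    (a' : R ≃ₐ[ℂ] R) (h : ∀ r, a' (ψ r) = ψ (a r)) : a' ∈ eqAut ρ := by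
  intro g
  ext r
  show a' (ρ g r) = ρ g (a' r)
  obtain ⟨r', rfl⟩ := ψ.surjective r
  obtain ⟨g', rfl⟩ := σ'.surjective g
  rw [← hψ, h, h, ← hψ]
  have := congrArg (fun f : R ≃ₐ[ℂ] R => f r') (ha g')
  exact congrArg ψ this

/-- restriction of an automorphism to a stable subgroup -/
def core_res (σ : G ≃* G) (G₀ : Subgroup G) (h : ∀ g, g ∈ G₀ ↔ σ g ∈ G₀) : G₀ ≃* G₀ where
  toFun g := ⟨σ g, (h g).1 g.2⟩
  invFun g := ⟨σ.symm g, (h _).2 (by rw [σ.apply_symm_apply]; exact g.2)⟩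
  left_inv g := Subtype.ext (σ.symm_apply_apply _)
  right_inv g := Subtype.ext (σ.apply_symm_apply _)
  map_mul' a b := Subtype.ext (map_mul σ _ _)

theorem core_sq {σ : G ≃* G} {ρ : G →* (R ≃ₐ[ℂ] R)} {s : R ≃+* R} (hs : IsRS ρ σ s) :
    s * s = 1 := by
  ext r
  exact hs.2.1 r

/-- hypotheses (6) -/
theorem core_as {σ : G ≃* G} {ρ : G →* (R ≃ₐ[ℂ] R)} {s : R ≃+* R} (hs : IsRS ρ σ s)
    (a : R ≃ₐ[ℂ] R) (ha : a ∈ eqAut ρ) (h : core_toE a * s * (core_toE a * s) = 1) :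
    IsRS ρ σ (core_toE a * s) := by
  refine ⟨fun c => ?_, fun r => ?_, fun g r => ?_⟩
  · show a (s (algebraMap ℂ R c)) = _
    rw [hs.1, a.commutes]
  · have := congrArg (fun f : R ≃+* R => f r) h
    exact this
  · show a (s (ρ g r)) = ρ (σ g) (a (s r))
    rw [hs.2.2]
    exact congrArg (fun f : R ≃ₐ[ℂ] R => f (s r)) (ha (σ g))

/-- hypotheses (7) -/
theorem core_ss {σ : G ≃* G} {ρ : G →* (R ≃ₐ[ℂ] R)} {s s' : R ≃+* R} (hs : IsRS ρ σ s)
    (hs' : IsRS ρ σ s') : s * s'⁻¹ ∈ (eqAut ρ).map core_toE := by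
  have hinv : ∀ r, s'⁻¹ r = s' r := by
    intro r
    have := core_inv_apply_self s' (s' r)
    rwa [hs'.2.1] at this
  obtain ⟨a, ha⟩ := core_lift (s * s'⁻¹) (by
    intro c
    show s (s'⁻¹ (algebraMap ℂ R c)) = _
    rw [hinv, hs'.1, hs.1, Complex.conj_conj])
  have hr : ∀ r, a r = s (s' r) := by
    intro r
    have := congrArg (fun f : R ≃+* R => f r) ha
    have h2 : (s * s'⁻¹) r = s (s'⁻¹ r) := rfl
    rw [hinv] at h2
    exact this.trans h2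
  refine ⟨a, ?_, ha⟩
  intro g
  ext r
  show a (ρ g r) = ρ g (a r)
  rw [hr, hr]
  obtain ⟨g', rfl⟩ := σ.surjective g
  have h1 : s' (ρ (σ g') r) = ρ g' (s' r) := by
    have := hs'.2.2 g' (s' r)
    rw [hs'.2.1] at this
    rw [← this, hs'.2.1]
  rw [h1, hs.2.2]

end CORE

theorem st_CORE (hSTR : ST_STR) (hGRP : ST_GRP) (hLOC : ST_LOC) : ST_CORE := by
  intro G _ H hH G₀ B₀ R _ _ _ ρ hρ hset σ hσ
  obtain ⟨A₁, A₂, h21, h1, hidx, ⟨N, φ, hφ⟩, hcompat, V₀, hfin, hgen, K₀, hK₀⟩ :=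
    hSTR G₀ (resFun H G₀) B₀ R (ρ.comp G₀.subtype) hset
  have hE : eqAut ρ ≤ eqAut (ρ.comp G₀.subtype) := fun a ha g => ha g
  set S : Set (R ≃+* R) := {μ | IsRS ρ σ μ} with hS
  have hQ : ∀ x ∈ (((eqAut ρ).map core_toE : Subgroup (R ≃+* R)) : Set (R ≃+* R)) ∪ S,
      (Anti x ∨ ∀ c : ℂ, x (algebraMap ℂ R c) = algebraMap ℂ R c) ∧
      (∃ σ' : G ≃* G, ∀ g r, x (ρ g r) = ρ (σ' g) (x r)) ∧
      Compat (ρ.comp G₀.subtype) x := by
    rintro x (⟨a, ha, rfl⟩ | hs)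
    · have hl : ∀ c : ℂ, core_toE a (algebraMap ℂ R c) = algebraMap ℂ R c :=
        fun c => a.commutes c
      have he : ∀ g r, core_toE a (ρ g r) = ρ g (core_toE a r) :=
        fun g r => congrArg (fun f : R ≃ₐ[ℂ] R => f r) (ha g)
      exact ⟨Or.inr hl, ⟨MulEquiv.refl G, he⟩, Or.inr hl, MulEquiv.refl G₀,
        fun g r => he g r⟩
    · have hs' : IsRS ρ σ x := hs
      exact ⟨Or.inl hs'.1, ⟨σ, hs'.2.2⟩, Or.inl hs'.1, core_res σ G₀ hσ,
        fun g r => hs'.2.2 g r⟩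
  have hstep : ∀ x ∈ (((eqAut ρ).map core_toE : Subgroup (R ≃+* R)) : Set (R ≃+* R)) ∪ S,
      ∀ a ∈ eqAut ρ, ∃ a' ∈ eqAut ρ, core_toE a' = x * core_toE a * x⁻¹ ∧
        (∀ r, a' (x r) = x (a r)) ∧ (a ∈ A₁ → a' ∈ A₁) ∧ (a ∈ A₂ → a' ∈ A₂) := by
    intro x hx a ha
    obtain ⟨q1, ⟨σ', q2⟩, q3⟩ := hQ x hx
    obtain ⟨a', e1, e2⟩ := core_conj x q1 a
    exact ⟨a', core_eqAut_conj ρ x σ' q2 a ha a' e2, e1, e2, hcompat x q3 a a' e2⟩
  have hmain := hGRP (R ≃+* R) ((eqAut ρ).map core_toE) ((A₁ ⊓ eqAut ρ).map core_toE)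
    ((A₂ ⊓ eqAut ρ).map core_toE) S
    (Subgroup.map_mono (inf_le_inf_right _ h21)) (Subgroup.map_mono inf_le_right)
    (by
      rw [Subgroup.relIndex_map_map_of_injective _ _ core_toE_inj, Subgroup.inf_relIndex_right]
      intro h0
      exact hidx (Subgroup.relIndex_eq_zero_of_le_right hE h0))
    (by
      refine ⟨N, (φ.comp (Subgroup.inclusion (inf_le_left : A₁ ⊓ eqAut ρ ≤ A₁))).comp
        (Subgroup.equivMapOfInjective (A₁ ⊓ eqAut ρ) core_toE core_toE_inj).symm.toMonoidHom,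
        fun a => ?_⟩
      obtain ⟨b, rfl⟩ :=
        (Subgroup.equivMapOfInjective (A₁ ⊓ eqAut ρ) core_toE core_toE_inj).surjective a
      have e1 : ((φ.comp (Subgroup.inclusion (inf_le_left : A₁ ⊓ eqAut ρ ≤ A₁))).comp
        (Subgroup.equivMapOfInjective (A₁ ⊓ eqAut ρ) core_toE core_toE_inj).symm.toMonoidHom)
          (Subgroup.equivMapOfInjective (A₁ ⊓ eqAut ρ) core_toE core_toE_inj b)
          = φ ⟨(b : R ≃ₐ[ℂ] R), b.2.1⟩ := by
        show φ (Subgroup.inclusion _ ((Subgroup.equivMapOfInjective (A₁ ⊓ eqAut ρ) core_toE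
          core_toE_inj).symm (Subgroup.equivMapOfInjective (A₁ ⊓ eqAut ρ) core_toE
          core_toE_inj b))) = _
        rw [MulEquiv.symm_apply_apply]
        rfl
      rw [e1, hφ, Subgroup.coe_equivMapOfInjective_apply,
        Subgroup.mem_map_iff_mem core_toE_inj, Subgroup.mem_inf]
      exact ⟨fun h => ⟨h, b.2.2⟩, fun h => h.1⟩)
    (by
      rintro x hx _ ⟨a, ha, rfl⟩
      obtain ⟨a', k1, k2, _, k4, _⟩ := hstep x hx a ha.2
      exact ⟨a', ⟨k4 ha.1, k1⟩, k2⟩)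
    (by
      rintro x hx _ ⟨a, ha, rfl⟩
      obtain ⟨a', k1, k2, _, _, k5⟩ := hstep x hx a ha.2
      exact ⟨a', ⟨k5 ha.1, k1⟩, k2⟩)
    (fun s hs => core_sq (ρ := ρ) (σ := σ) hs)
    (by
      rintro s hs _ ⟨a, ha, rfl⟩ h
      exact core_as hs a ha h)
    (fun s hs s' hs' => core_ss (ρ := ρ) (σ := σ) hs hs')
    (by
      intro s hs
      have hs' : IsRS ρ σ s := hs
      obtain ⟨T, hT1, hT2⟩ := core_loc hLOC ρ hρ σ (eqAut (ρ.comp G₀.subtype)) A₂ hE V₀ hfin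
        hgen K₀ hK₀ s hs (by
          rintro a ⟨ha1, ha2⟩
          obtain ⟨a', k1, k2, k3, _, k5⟩ := hstep s (Or.inr hs) a ha2
          refine ⟨a', ⟨k5 ha1, k1⟩, fun r => ?_⟩
          have := k3 (s r)
          rwa [hs'.2.1] at this)
      classical
      refine ⟨T.image fun b => core_toE b * s, ?_⟩
      rintro _ ⟨a, ha, rfl⟩ h
      have h' : ∀ r, a (s (a (s r))) = r := fun r =>
        congrArg (fun f : R ≃+* R => f r) h
      obtain ⟨b, hb, x, hx, hr⟩ := hT2 a ha h'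
      refine ⟨core_toE b * s, Finset.mem_image_of_mem _ hb, ?_, core_toE x, ⟨x, hx, rfl⟩, ?_⟩
      · refine core_as hs' b (hT1 b hb).1.2 ?_
        ext r
        exact (hT1 b hb).2 r
      · ext r
        exact hr r)
  obtain ⟨T, hT1, hT2⟩ := hmain
  refine ⟨T, fun μ hμ => hT1 μ hμ, fun μ hμ => ?_⟩
  obtain ⟨b, hb, x, ⟨a, ha, rfl⟩, hx⟩ := hT2 μ hμ
  refine ⟨b, hb, a, ha, fun r => ?_⟩
  rw [hx]
  rfl

end Pool.Agent.Helper43.RS
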